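import Pool.Agent.H21.BS.TB

/-!
# The mean square of the dual function of one window
-/

set_option autoImplicit false

open Finset Pool.Agent.H6.N4D Pool.Agent.H21.BS

namespace Pool.Agent.H72.BS

lemma ee_conj (x : ℝ) : starRingEnd ℂ (ee x) = ee (-x) := by
  unfold ee
  rw [← Complex.exp_conj, map_mul, Complex.conj_ofReal, Complex.conj_I]
  congr 1
  push_cast
  ring

lemma DD_conj (q n : ℕ) : starRingEnd ℂ (DD q n) = DD q n := by
  unfold DD
  split_ifs <;> simp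

/-- the correlation of two test functions of one window -/
noncomputable def SS (V : Cell) (q p : ℕ) : ℂ :=
  ∑ x ∈ range V.N, DD q (V.a + x) * DD p (V.a + x) *
    (ee ((V.α q - V.α p) * ((V.a + x : ℕ) : ℝ)) *
      (V.g q (V.a + x) * starRingEnd ℂ (V.g p (V.a + x))))

lemma u_mul_conj (V : Cell) (q p n : ℕ) : V.u q n * starRingEnd ℂ (V.u p n) =
    DD q n * DD p n * (ee ((V.α q - V.α p) * (n : ℝ)) * (V.g q n * starRingEnd ℂ (V.g p n))) := by
  unfold Cell.u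
  rw [map_mul, map_mul, ee_conj, DD_conj,
    show (V.α q - V.α p) * (n : ℝ) = V.α q * n + -(V.α p * n) by ring, ee_add]
  ring

lemma sum_om_sq (V : Cell) :
    ∑ x ∈ range V.N, V.om (V.a + x) * starRingEnd ℂ (V.om (V.a + x)) =
      ∑ q ∈ V.Q, ∑ p ∈ V.Q, 1 / (q : ℂ) * V.c q * (1 / (p : ℂ) * starRingEnd ℂ (V.c p)) *
        SS V q p := by
  have h1 : ∀ x ∈ range V.N, V.om (V.a + x) * starRingEnd ℂ (V.om (V.a + x)) =
      ∑ q ∈ V.Q, ∑ p ∈ V.Q, 1 / (q : ℂ) * V.c q * (1 / (p : ℂ) * starRingEnd ℂ (V.c p)) *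
        (V.u q (V.a + x) * starRingEnd ℂ (V.u p (V.a + x))) := by
    intro x _
    unfold Cell.om
    rw [map_sum, Finset.sum_mul_sum]
    refine sum_congr rfl fun q _ => sum_congr rfl fun p _ => ?_
    rw [map_mul, map_mul, map_div₀, map_one, Complex.conj_natCast]
    ring
  rw [sum_congr rfl h1, sum_comm]
  refine sum_congr rfl fun q _ => ?_
  rw [sum_comm]
  refine sum_congr rfl fun p _ => ?_
  rw [← mul_sum]
  congr 1
  unfold SS
  exact sum_congr rfl fun x _ => u_mul_conj V q p (V.a + x)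

lemma sum_norm_sq (V : Cell) : ∑ x ∈ range V.N, ‖V.om (V.a + x)‖ ^ 2 =
    ‖∑ x ∈ range V.N, V.om (V.a + x) * starRingEnd ℂ (V.om (V.a + x))‖ := by
  have h : ∑ x ∈ range V.N, V.om (V.a + x) * starRingEnd ℂ (V.om (V.a + x)) =
      ((∑ x ∈ range V.N, ‖V.om (V.a + x)‖ ^ 2 : ℝ) : ℂ) := by
    push_cast
    refine sum_congr rfl fun x _ => ?_
    rw [Complex.mul_conj, Complex.normSq_eq_norm_sq]
    push_cast
    rfl
  rw [h, Complex.norm_real, Real.norm_of_nonneg (sum_nonneg fun _ _ => sq_nonneg _)]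

lemma norm_SS_le (V : Cell) (q p : ℕ) (hq : ∀ n, ‖V.g q n‖ ≤ 1) (hp : ∀ n, ‖V.g p n‖ ≤ 1) :
    ‖SS V q p‖ ≤ ∑ x ∈ range V.N, ‖DD q (V.a + x)‖ * ‖DD p (V.a + x)‖ := by
  unfold SS
  refine (norm_sum_le _ _).trans (sum_le_sum fun x _ => ?_)
  rw [norm_mul, norm_mul, norm_mul, norm_mul, norm_ee, one_mul, RCLike.norm_conj]
  have h1 : ‖V.g q (V.a + x)‖ * ‖V.g p (V.a + x)‖ ≤ 1 :=
    mul_le_one₀ (hq _) (norm_nonneg _) (hp _)
  have h2 : 0 ≤ ‖DD q (V.a + x)‖ * ‖DD p (V.a + x)‖ := by positivity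
  exact mul_le_of_le_one_right h2 h1

theorem pf_DIA (hBVL : T_BVL) (hBP : T_BP) (hPR2 : T_PR2) : T_DIA := by
  classical
  intro W
  refine ⟨900 * W ^ 2 + 72 * Real.sqrt (1 + 6 * W ^ 3), by positivity, ?_⟩
  intro P κ V h
  have hq0 : ∀ q ∈ V.Q, (0 : ℝ) < q := fun q hq => by exact_mod_cast (h.pr q hq).pos
  have hW0 : 0 ≤ ∑ q ∈ V.Q, 1 / (q : ℝ) := sum_nonneg fun q _ => by positivity
  have hW : 0 ≤ W := hW0.trans h.wt
  have hNn : 0 < V.N := by
    rcases Nat.eq_zero_or_pos V.N with h0 | h0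
    · have := h.k2
      rw [h0] at this
      norm_num at this
    · exact h0
  have hN : (0 : ℝ) < V.N := by exact_mod_cast hNn
  have hP : (0 : ℝ) < P := by exact_mod_cast h.P1
  have hκ := h.k0
  -- the bound for one pair
  have key : ∀ q ∈ V.Q, ∀ p ∈ V.Q,
      ‖1 / (q : ℂ) * V.c q * (1 / (p : ℂ) * starRingEnd ℂ (V.c p)) * SS V q p‖ ≤
        (if q = p then 1 / (q : ℝ) * ‖V.c q‖ ^ 2 * V.N else 0) +
          (1 / (q : ℝ) * (1 / (p : ℝ)) * (900 * κ * V.N) +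
          (if Bad2 V.N κ V.α q p then 1 / (q : ℝ) * (1 / p) else 0) * (72 * V.N)) := by
    intro q hq p hp
    have hq1 := hq0 q hq
    have hp1 := hq0 p hp
    obtain ⟨h1, h2, h3⟩ := hPR2 V.N V.a κ V.α q p (h.pr q hq) (h.pr p hp) (h.up q hq) (h.up p hp)
      h.k0 h.k1 h.k2
    have hgq := h.bv q hq
    have hgp := h.bv p hp
    have hS := norm_SS_le V q p hgq.1 hgp.1
    have hn : ‖1 / (q : ℂ) * V.c q * (1 / (p : ℂ) * starRingEnd ℂ (V.c p)) * SS V q p‖ =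
        1 / (q : ℝ) * (1 / (p : ℝ)) * (‖V.c q‖ * ‖V.c p‖ * ‖SS V q p‖) := by
      rw [norm_mul, norm_mul, norm_mul, norm_mul, RCLike.norm_conj, norm_div, norm_div, norm_one,
        Complex.norm_natCast, Complex.norm_natCast]
      ring
    rw [hn]
    have hA : 0 ≤ 1 / (q : ℝ) * (1 / (p : ℝ)) := by positivity
    have hB : 0 ≤ 1 / (q : ℝ) * (1 / (p : ℝ)) * (900 * κ * V.N) := by positivity
    have hcc : ‖V.c q‖ * ‖V.c p‖ ≤ 9 := by
      have := mul_le_mul (h.cb q hq) (h.cb p hp) (norm_nonneg _) (by norm_num : (0 : ℝ) ≤ 3)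
      linarith
    by_cases hqp : q = p
    · subst hqp
      rw [if_pos rfl]
      have hS1 : ‖SS V q q‖ ≤ q * V.N := by
        refine hS.trans (le_trans (le_of_eq ?_) h1)
        exact sum_congr rfl fun x _ => by ring
      have h5 : 1 / (q : ℝ) * (1 / (q : ℝ)) * (‖V.c q‖ * ‖V.c q‖ * ‖SS V q q‖) ≤
          1 / (q : ℝ) * ‖V.c q‖ ^ 2 * V.N := by
        calc 1 / (q : ℝ) * (1 / (q : ℝ)) * (‖V.c q‖ * ‖V.c q‖ * ‖SS V q q‖)
            ≤ 1 / (q : ℝ) * (1 / (q : ℝ)) * (‖V.c q‖ * ‖V.c q‖ * (q * V.N)) := by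
              gcongr
          _ = 1 / (q : ℝ) * ‖V.c q‖ ^ 2 * V.N := by
              field_simp
      have h6 : 0 ≤ (if Bad2 V.N κ V.α q q then 1 / (q : ℝ) * (1 / q) else 0) * (72 * (V.N : ℝ)) := by
        split_ifs <;> positivity
      linarith
    · rw [if_neg hqp, zero_add]
      by_cases hb : Bad2 V.N κ V.α q p
      · rw [if_pos hb]
        have hS2 : ‖SS V q p‖ ≤ 8 * V.N := hS.trans (h2 hqp)
        have h5 : ‖V.c q‖ * ‖V.c p‖ * ‖SS V q p‖ ≤ 9 * (8 * V.N) :=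
          mul_le_mul hcc hS2 (norm_nonneg _) (by norm_num)
        have h6 := mul_le_mul_of_nonneg_left h5 hA
        have h7 : 1 / (q : ℝ) * (1 / (p : ℝ)) * (9 * (8 * (V.N : ℝ))) =
          1 / (q : ℝ) * (1 / p) * (72 * V.N) := by ring
        linarith
      · rw [if_neg hb, zero_mul, add_zero]
        have hG : BV 20 V.a V.N fun n => V.g q n * starRingEnd ℂ (V.g p n) := by
          have := hBVL.1 10 10 V.a V.N (V.g q) (fun n => starRingEnd ℂ (V.g p n)) hgq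
            (hBVL.2.1 10 V.a V.N (V.g p) hgp)
          norm_num at this
          exact this
        have hS3 : ‖SS V q p‖ ≤ 100 * (κ * V.N) := by
          have h8 := h3 hqp hb (fun n => V.g q n * starRingEnd ℂ (V.g p n)) hG
          unfold SS
          exact h8
        have h5 : ‖V.c q‖ * ‖V.c p‖ * ‖SS V q p‖ ≤ 9 * (100 * (κ * V.N)) :=
          mul_le_mul hcc hS3 (norm_nonneg _) (by norm_num)
        have h6 := mul_le_mul_of_nonneg_left h5 hA
        have h7 : 1 / (q : ℝ) * (1 / (p : ℝ)) * (9 * (100 * (κ * (V.N : ℝ)))) =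
          1 / (q : ℝ) * (1 / (p : ℝ)) * (900 * κ * V.N) := by ring
        linarith
  -- summation
  have hsum : ∑ x ∈ range V.N, ‖V.om (V.a + x)‖ ^ 2 ≤
      V.N * ∑ q ∈ V.Q, 1 / (q : ℝ) * ‖V.c q‖ ^ 2 +
        ((∑ q ∈ V.Q, 1 / (q : ℝ)) ^ 2 * (900 * κ * V.N) +
          badmass2 V.N κ V.Q V.α * (72 * V.N)) := by
    rw [sum_norm_sq, sum_om_sq]
    refine (norm_sum_le _ _).trans ?_
    refine (sum_le_sum fun q hq => (norm_sum_le _ _).trans
      (sum_le_sum fun p hp => key q hq p hp)).trans (le_of_eq ?_)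
    simp_rw [sum_add_distrib]
    congr 1
    · rw [mul_sum]
      refine sum_congr rfl fun q hq => ?_
      rw [sum_ite_eq, if_pos hq]
      ring
    · congr 1
      · rw [sq, Finset.sum_mul_sum, sum_mul]
        refine sum_congr rfl fun q _ => ?_
        rw [sum_mul]
      · unfold badmass2
        rw [sum_mul]
        refine sum_congr rfl fun q _ => ?_
        rw [sum_mul]
  have hr0 : 0 ≤ κ + 1 / (P : ℝ) := by positivity
  have hbm0 : 0 ≤ badmass2 V.N κ V.Q V.α := by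
    unfold badmass2
    refine sum_nonneg fun q _ => sum_nonneg fun p _ => ?_
    split_ifs <;> positivity
  have hbm : badmass2 V.N κ V.Q V.α ≤ Real.sqrt (1 + 6 * W ^ 3) * Real.sqrt (κ + 1 / P) := by
    rw [← Real.sqrt_mul (by positivity)]
    apply Real.le_sqrt_of_sq_le
    have h1 := hBP V.N P κ W V.Q V.α h.k0 hNn h.lo h.P1 h.wt
    have h2 := h.nc
    have h3 : (1 + 6 * W ^ 3) * (κ + 1 / (P : ℝ)) =
      κ + 6 * W ^ 3 / P + (1 / (P : ℝ) + 6 * W ^ 3 * κ) := by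
      field_simp
      ring
    have h4 : 0 ≤ 1 / (P : ℝ) + 6 * W ^ 3 * κ := by positivity
    linarith
  have hk : κ ≤ Real.sqrt (κ + 1 / P) := by
    apply Real.le_sqrt_of_sq_le
    have h1 : κ ^ 2 ≤ κ := by
      have := h.k1
      nlinarith
    have h2 : 0 ≤ 1 / (P : ℝ) := by positivity
    linarith
  have hs2 : (∑ q ∈ V.Q, 1 / (q : ℝ)) ^ 2 ≤ W ^ 2 := pow_le_pow_left₀ hW0 h.wt 2
  have hfin1 : (∑ q ∈ V.Q, 1 / (q : ℝ)) ^ 2 * (900 * κ * V.N) ≤
      W ^ 2 * (900 * Real.sqrt (κ + 1 / P) * V.N) := by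
    have h1 : 900 * κ * (V.N : ℝ) ≤ 900 * Real.sqrt (κ + 1 / P) * V.N := by gcongr
    exact mul_le_mul hs2 h1 (by positivity) (by positivity)
  have hfin2 : badmass2 V.N κ V.Q V.α * (72 * V.N) ≤
      Real.sqrt (1 + 6 * W ^ 3) * Real.sqrt (κ + 1 / P) * (72 * V.N) := by gcongr
  calc ∑ x ∈ range V.N, ‖V.om (V.a + x)‖ ^ 2
      ≤ V.N * ∑ q ∈ V.Q, 1 / (q : ℝ) * ‖V.c q‖ ^ 2 +
        ((∑ q ∈ V.Q, 1 / (q : ℝ)) ^ 2 * (900 * κ * V.N) +
          badmass2 V.N κ V.Q V.α * (72 * V.N)) := hsum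
    _ ≤ V.N * ∑ q ∈ V.Q, 1 / (q : ℝ) * ‖V.c q‖ ^ 2 +
        (W ^ 2 * (900 * Real.sqrt (κ + 1 / P) * V.N) +
          Real.sqrt (1 + 6 * W ^ 3) * Real.sqrt (κ + 1 / P) * (72 * V.N)) := by linarith
    _ = _ := by ring

end Pool.Agent.H72.BS
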