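import Pool.Agent.H21.BS.TB

/-!
# The norm of the dual function of one level
-/

set_option autoImplicit false

open Finset Pool.Agent.H6.N4D Pool.Agent.H21.BS

namespace Pool.Agent.H72.BS

lemma sqrt_two_div_le {s : ℝ} (hs : 1 ≤ s) :
    Real.sqrt (2 / s) ≤ 2 * s ^ (-(1 / 5) : ℝ) := by
  have h0 : 0 < s := by linarith
  have h1 : 0 < s ^ (-(1 / 5) : ℝ) := Real.rpow_pos_of_pos h0 _
  rw [Real.sqrt_le_left (by positivity)]
  have h2 : (2 * s ^ (-(1 / 5) : ℝ)) ^ 2 = 4 * s ^ (-(2 / 5) : ℝ) := by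
    rw [mul_pow, ← Real.rpow_natCast (s ^ (-(1 / 5) : ℝ)) 2, ← Real.rpow_mul h0.le]
    norm_num
  rw [h2]
  have h3 : s ^ (-1 : ℝ) ≤ s ^ (-(2 / 5) : ℝ) :=
    Real.rpow_le_rpow_of_exponent_le hs (by norm_num)
  rw [Real.rpow_neg_one] at h3
  have h4 : 0 < s⁻¹ := by positivity
  rw [div_eq_mul_inv]
  linarith

theorem pf_OM1 (hLVL : T_LVL) (hDIA : T_DIA) : T_OM1 := by
  intro W
  obtain ⟨C, hC, hD⟩ := hDIA W
  refine ⟨2 * C, by positivity, ?_⟩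
  intro S c hS hc i hi1 hiK
  obtain ⟨hA, -, hB, hO, hV⟩ := hLVL S W hS
  obtain ⟨hN, hs0, hcnt, hL, hdec⟩ := hA i hiK
  have hNr : (0 : ℝ) < S.N i := by exact_mod_cast hN
  have hLr : (0 : ℝ) < S.L := by exact_mod_cast hL
  have hcr : (S.cnt i : ℝ) * S.N i = S.L := by exact_mod_cast hcnt
  -- the decomposition
  have h1 : ∑ x ∈ range S.L, ‖S.Om c i (S.U + x)‖ ^ 2 =
      ∑ k ∈ range (S.cnt i), ∑ x ∈ range (S.N i), ‖S.Om c i (S.U + k * S.N i + x)‖ ^ 2 := by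
    have := hdec fun n => ((‖S.Om c i n‖ ^ 2 : ℝ) : ℂ)
    exact_mod_cast this
  -- one window
  have hs1 : (1 : ℝ) ≤ S.s 0 := by exact_mod_cast hS.s1 0 (Nat.zero_le _)
  have hκ : Real.sqrt (S.κ i + 1 / (S.P i : ℝ)) ≤ 2 * (S.s 0 : ℝ) ^ (-(1 / 5) : ℝ) := by
    refine le_trans (Real.sqrt_le_sqrt ?_) (sqrt_two_div_le hs1)
    obtain ⟨hk, hp⟩ := hB (i - 1) i (by omega) hiK
    have hs2 := (hA (i - 1) (by omega)).2.1
    have hs3 : (S.s 0 : ℝ) ≤ S.s (i - 1) := by exact_mod_cast hs2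
    have hs4 : (0 : ℝ) < S.s (i - 1) := by linarith
    have hp2 : (S.s (i - 1) : ℝ) ≤ S.P i := by exact_mod_cast hp
    have h2 : S.κ i ≤ 1 / S.s (i - 1) := by
      rw [le_div_iff₀ hs4]; exact hk
    have h3 : 1 / (S.P i : ℝ) ≤ 1 / S.s (i - 1) := one_div_le_one_div_of_le hs4 hp2
    have h4 : 1 / (S.s (i - 1) : ℝ) ≤ 1 / S.s 0 := one_div_le_one_div_of_le (by linarith) hs3
    have h5 : (2 : ℝ) / S.s 0 = 1 / S.s 0 + 1 / S.s 0 := by ring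
    rw [h5]
    linarith
  have h2 : ∀ k ∈ range (S.cnt i), ∑ x ∈ range (S.N i), ‖S.Om c i (S.U + k * S.N i + x)‖ ^ 2 ≤
      S.N i * (∑ q ∈ S.Q i, 1 / (q : ℝ) * ‖c i k q‖ ^ 2 +
        C * (2 * (S.s 0 : ℝ) ^ (-(1 / 5) : ℝ))) := by
    intro k hk
    rw [mem_range] at hk
    have h3 := hD (S.P i) (S.κ i) (S.V i k (c i k)) (hO i hi1 hiK k hk (c i k) (hc i k))
    have h4 : ∑ x ∈ range (S.N i), ‖S.Om c i (S.U + k * S.N i + x)‖ ^ 2 =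
        ∑ x ∈ range (S.V i k (c i k)).N,
          ‖(S.V i k (c i k)).om ((S.V i k (c i k)).a + x)‖ ^ 2 := by
      refine sum_congr rfl fun x hx => ?_
      rw [hV c i k x hiK hk (mem_range.1 hx)]
      rfl
    rw [h4]
    refine h3.trans ?_
    have h5 : C * Real.sqrt (S.κ i + 1 / (S.P i : ℝ)) ≤
      C * (2 * (S.s 0 : ℝ) ^ (-(1 / 5) : ℝ)) := mul_le_mul_of_nonneg_left hκ hC
    have h6 : ((S.V i k (c i k)).N : ℝ) = S.N i := rfl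
    rw [h6]
    refine mul_le_mul_of_nonneg_left ?_ hNr.le
    have h7 : ∑ q ∈ (S.V i k (c i k)).Q, 1 / (q : ℝ) * ‖(S.V i k (c i k)).c q‖ ^ 2 =
      ∑ q ∈ S.Q i, 1 / (q : ℝ) * ‖c i k q‖ ^ 2 := rfl
    rw [h7]
    linarith
  unfold avr
  rw [div_le_iff₀ hLr, h1]
  refine (sum_le_sum h2).trans (le_of_eq ?_)
  rw [← mul_sum, sum_add_distrib, sum_const, card_range, nsmul_eq_mul]
  rw [add_mul, div_mul_eq_mul_div, div_mul_cancel₀ _ hLr.ne', ← hcr]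
  ring

end Pool.Agent.H72.BS
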